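import Pool.Agent.C2.Stmts

/-!
# Squad C2M, row ABS: the sum over the border
-/

set_option autoImplicit false

namespace Pool.Agent.C2.H46

open Finset Pool.Agent.C2

theorem sum_wt {F : Type} [Field F] [Fintype F] [DecidableEq F] {J : Type} [Fintype J]
    [DecidableEq J] (hJ : Nonempty J) : ∑ b : J → F, wt b = 0 := by
  have h1 : ∑ b : J → F, wt b
      = ∏ _j : J, ∑ x : F, ((if x = 0 then (Fintype.card F : ℤ) else 0) - 1) := by
    rw [Finset.prod_univ_sum, Fintype.piFinset_univ]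
    rfl
  rw [h1]
  obtain ⟨j⟩ := hJ
  apply Finset.prod_eq_zero (Finset.mem_univ j)
  rw [Finset.sum_sub_distrib, Finset.sum_ite_eq' Finset.univ (0 : F), if_pos (Finset.mem_univ _)]
  simp

theorem abs (kdw : KdwStmt) (ak3 : Ak3Stmt) : AbsStmt := by
  intro F _ _ _ X J _ _ _ _ o B hB hJ
  have hq : (0 : ℤ) < (Fintype.card F : ℤ) := by
    exact_mod_cast Fintype.card_pos
  have hne : Nonempty J := by
    rw [← Fintype.card_pos_iff, hJ]
    norm_num
  have hw := sum_wt (F := F) (J := J) hne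
  -- weighted kernel duality
  have h1 := kdw F J X X (fun j x => if o j = x then 1 else 0) (fun x y => B x y)
  have h2 : ∀ b : J → F,
      Nat.card {x : X → F // ∀ y, ∑ n, b n * (if o n = y then (1 : F) else 0)
        + ∑ i, x i * B i y = 0} = rB (bd o b) B := by
    intro b
    unfold rB
    apply Nat.card_congr
    apply Equiv.subtypeEquivRight
    intro u
    apply forall_congr'
    intro y
    have e1 : ∑ n, b n * (if o n = y then (1 : F) else 0) = bd o b y := by
      unfold bd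
      apply Finset.sum_congr rfl
      intro j _
      rw [mul_ite, mul_one, mul_zero]
    have e2 : ∑ i, u i * B i y = ∑ i, B y i * u i := by
      apply Finset.sum_congr rfl
      intro i _
      rw [hB i y, mul_comm]
    rw [e1, e2, add_comm]
  have h3 : Nat.card {z : X → F // (∀ i, ∑ y, B i y * z y = 0) ∧
      ∀ n, ∑ y, (if o n = y then (1 : F) else 0) * z y ≠ 0} = kO B o := by
    unfold kO
    apply Nat.card_congr
    apply Equiv.subtypeEquivRight
    intro u
    have e1 : ∀ n, ∑ y, (if o n = y then (1 : F) else 0) * u y = u (o n) := by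
      intro n
      simp
    simp only [e1]
  simp only [h2, h3] at h1
  rw [hJ] at h1
  have h4 : ∑ b : J → F, wt b * (rB (bd o b) B : ℤ) = (Fintype.card F : ℤ) ^ 4 * (kO B o : ℤ) := by
    have hp : (0 : ℤ) < (Fintype.card F : ℤ) ^ Fintype.card X := pow_pos hq _
    apply mul_left_cancel₀ (ne_of_gt hp)
    rw [h1, pow_add]
    ring
  have h5 : (Fintype.card F : ℤ) ^ 2 * ∑ b : J → F, ∑ a : F, wt b * (cE a (bd o b) B : ℤ) ^ 3
      = ((Fintype.card F : ℤ) ^ 5 + (Fintype.card F : ℤ) ^ 3 - (Fintype.card F : ℤ) ^ 2 - 1)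
        * (kB B : ℤ) ^ 2 * ((Fintype.card F : ℤ) ^ 4 * (kO B o : ℤ)) := by
    have h6 : ∀ b : J → F, (Fintype.card F : ℤ) ^ 2 * ∑ a : F, wt b * (cE a (bd o b) B : ℤ) ^ 3
        = (kB B : ℤ) ^ 3 * wt b + ((Fintype.card F : ℤ) ^ 5 + (Fintype.card F : ℤ) ^ 3
          - (Fintype.card F : ℤ) ^ 2 - 1) * (kB B : ℤ) ^ 2 * (wt b * (rB (bd o b) B : ℤ)) := by
      intro b
      have h7 := ak3 F X (bd o b) B hB
      rw [← Finset.mul_sum]
      calc (Fintype.card F : ℤ) ^ 2 * (wt b * ∑ a : F, (cE a (bd o b) B : ℤ) ^ 3)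
          = wt b * ((Fintype.card F : ℤ) ^ 2 * ∑ a : F, (cE a (bd o b) B : ℤ) ^ 3) := by ring
        _ = _ := by rw [h7]; ring
    rw [Finset.mul_sum, Finset.sum_congr rfl (fun b _ => h6 b), Finset.sum_add_distrib,
      ← Finset.mul_sum, ← Finset.mul_sum, hw, h4]
    ring
  have hp : (0 : ℤ) < (Fintype.card F : ℤ) ^ 2 := pow_pos hq _
  apply mul_left_cancel₀ (ne_of_gt hp)
  rw [h5]
  ring

end Pool.Agent.C2.H46
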